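import Pool.Graph.R_pool_sql_team_seeded_3997aac3.Q285.EX.Ncg
import Pool.Graph.R_pool_sql_team_seeded_3997aac3.Q38.EX.NrmB
import Pool.Graph.R_pool_sql_team_seeded_3997aac3.Q38.EX.Spl
import Pool.Graph.R_pool_sql_team_seeded_3997aac3.Q53.EX.UnrE

/-!
# Project ED (helper500), part A2, first part: local components, an auxiliary element, a prime
-/

set_option autoImplicit false
set_option linter.unusedSectionVars false

namespace Pool.Agent.H385.ED.CNDB

open NumberField IsDedekindDomain Module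
open Pool.Agent.Q92.AR Pool.Agent.Q20.EX
open Pool.Agent.Q38.EX (near_one near_mul near_div lt_one_iff_le_exp val_root val_root_sub_one
  exists_root_near)

section val

variable {M : Type*} [Field M] {Γ : Type*} [LinearOrderedCommGroupWithZero Γ] (W : Valuation M Γ)

theorem near_pow {z : M} {r : Γ} (hr : r < 1) (h : W (z - 1) ≤ r) (n : ℕ) : W (z ^ n - 1) ≤ r := by
  induction n with
  | zero => rw [pow_zero, sub_self, map_zero]; exact zero_le
  | succ n ih =>
    rw [pow_succ]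
    exact near_mul W hr ih h

/-- a power with exponent divisible by the residue characteristic is nearer to one -/
theorem near_pow_nat {t : M} {e δ : Γ} (hδ : δ < 1) (he : e ≤ δ) (h : W (t - 1) ≤ e) {B : ℕ}
    (hB : W (B : M) ≤ δ) : W (t ^ B - 1) ≤ e * δ := by
  have h1 : t ^ B - 1 = (t - 1) * ∑ i ∈ Finset.range B, t ^ i := by
    rw [mul_comm, geom_sum_mul]
  have h2 : ∑ i ∈ Finset.range B, t ^ i = (B : M) + ∑ i ∈ Finset.range B, (t ^ i - 1) := by
    rw [Finset.sum_sub_distrib, Finset.sum_const, Finset.card_range, nsmul_eq_mul, mul_one]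
    ring
  have h3 : W (∑ i ∈ Finset.range B, (t ^ i - 1)) ≤ δ :=
    Valuation.map_sum_le _ fun i _ => near_pow W hδ (h.trans he) i
  rw [h1, map_mul, h2]
  refine mul_le_mul' h ?_
  exact (Valuation.map_add _ _ _).trans (max_le hB h3)

theorem near_pow_pow {t : M} {δ : Γ} (hδ : δ < 1) (h : W (t - 1) ≤ δ) {B : ℕ}
    (hB : W (B : M) ≤ δ) (k : ℕ) : W (t ^ B ^ k - 1) ≤ δ ^ (k + 1) := by
  induction k with
  | zero => rw [pow_zero, pow_one, zero_add, pow_one]; exact h
  | succ k ih =>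
    rw [pow_succ, pow_mul, pow_succ δ (k + 1)]
    refine near_pow_nat W hδ ?_ ih hB
    rw [pow_succ]
    exact mul_le_of_le_one_left' (pow_le_one' hδ.le k)

end val

section
variable {K : Type} [Field K] [NumberField K]

theorem prin_pow (x : Kˣ) (m : ℕ) : prin (x ^ m) = m • prin x :=
  (prinHom (F := K)).map_nsmul m (Additive.ofMul x)

theorem pos_pow {x : K} (hx : Pos x) (m : ℕ) : Pos (x ^ m) := by
  intro φ
  rw [map_pow]
  exact pow_pos (hx φ) m

/-- the local components at the one-units -/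
theorem chi_zero {A p a : ℕ} (hA : A ≠ 0) (hc : Nat.Coprime A p) (χ : Dv K →+ Additive ℂˣ)
    (hχ : ∀ x ∈ Ray K A, χ (prin x) = 0) (y : Kˣ) (hy : Pos (y : K))
    (h1 : ∀ u : HeightOneSpectrum (𝓞 K), (A : 𝓞 K) ∈ u.asIdeal →
      u.valuation K ((y : K) - 1) ≤ WithZero.exp (-1 : ℤ))
    (h2 : p ^ a • χ (prin y) = 0) : χ (prin y) = 0 := by
  obtain ⟨k, hk0, hk⟩ := Pool.Agent.Q285.EX.exists_exp_le (F := K)
    (Pool.Agent.Q285.EX.pN K A hA) hA
  have h3 : A ^ k • χ (prin y) = 0 := by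
    rw [← map_nsmul, ← prin_pow]
    refine hχ _ ⟨?_, ?_⟩
    · intro u hu
      rw [Units.val_pow_eq_pow_val]
      have h4 := hk u ((Pool.Agent.Q285.EX.mem_pN hA u).2 hu)
      have hlt : (WithZero.exp (-1 : ℤ)) < 1 := by
        rw [← WithZero.exp_zero, WithZero.exp_lt_exp]
        omega
      have hAu : u.valuation K (A : K) ≤ WithZero.exp (-1 : ℤ) :=
        (lt_one_iff_le_exp _).1 (Pool.Agent.Q38.EX.val_nat_lt_one hu)
      refine (near_pow_pow (u.valuation K) hlt (h1 u hu) hAu k).trans (le_trans ?_ h4)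
      rw [← WithZero.exp_nsmul, WithZero.exp_le_exp]
      simp
    · rw [Units.val_pow_eq_pow_val]
      exact pos_pow hy _
  have h4 : addOrderOf (χ (prin y)) ∣ 1 := by
    have h5 := Nat.dvd_gcd (addOrderOf_dvd_of_nsmul_eq_zero h3) (addOrderOf_dvd_of_nsmul_eq_zero h2)
    rwa [Nat.Coprime.pow k a hc] at h5
  exact AddMonoid.addOrderOf_eq_one_iff.1 (Nat.dvd_one.1 h4)

/-- an element with prescribed behaviour -/
theorem exists_y {B : ℕ} (hB : B ≠ 0) {v : HeightOneSpectrum (𝓞 K)} (hv : (B : 𝓞 K) ∉ v.asIdeal)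
    {n : ℕ} (hn : n ≠ 0) : ∃ y : 𝓞 K,
    (∀ u : HeightOneSpectrum (𝓞 K), (B : 𝓞 K) ∈ u.asIdeal →
      y ∈ u.asIdeal ∧ y ∉ u.asIdeal ^ 2) ∧
    v.valuation K ((y : K) - 1) < v.valuation K (n : K) ^ 2 := by
  classical
  have hπ : ∀ u : HeightOneSpectrum (𝓞 K), ∃ π : 𝓞 K, π ∈ u.asIdeal ∧ π ∉ u.asIdeal ^ 2 := by
    intro u
    obtain ⟨y₀, h1, h2⟩ := Ideal.exists_mem_pow_notMem_pow_succ u.asIdeal u.ne_bot
      u.isPrime.ne_top 1
    rw [pow_one] at h1
    exact ⟨y₀, h1, h2⟩
  choose π hπ1 hπ2 using hπ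
  obtain ⟨k, hk0, hk⟩ := Pool.Agent.Q285.EX.exists_exp_le (F := K) {v} hn
  have hk' := hk v (Finset.mem_singleton_self v)
  obtain ⟨y, hy⟩ := IsDedekindDomain.exists_forall_sub_mem_ideal
    (s := insert v (Pool.Agent.Q285.EX.pN K B hB))
    (fun u : HeightOneSpectrum (𝓞 K) => u.asIdeal) (fun u => if u = v then 2 * k + 1 else 2)
    (fun u _ => u.prime) (fun u _ w _ h h' => h (HeightOneSpectrum.ext h'))
    (fun u => if (u : HeightOneSpectrum (𝓞 K)) = v then 1 else π u)
  refine ⟨y, fun u hu => ?_, ?_⟩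
  · have huv : u ≠ v := by
      rintro rfl
      exact hv hu
    have h1 := hy u (Finset.mem_insert_of_mem ((Pool.Agent.Q285.EX.mem_pN hB u).2 hu))
    simp only [if_neg huv] at h1
    refine ⟨?_, fun h2 => hπ2 u ?_⟩
    · have h3 := Ideal.add_mem _ (Ideal.pow_le_self two_ne_zero h1) (hπ1 u)
      rwa [sub_add_cancel] at h3
    · have h3 := Ideal.sub_mem _ h2 h1
      rwa [sub_sub_cancel] at h3
  · have h1 := hy v (Finset.mem_insert_self _ _)
    simp only [if_true] at h1
    rw [← v.intValuation_le_pow_iff_mem, ← v.valuation_of_algebraMap (K := K)] at h1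
    replace h1 : v.valuation K (algebraMap (𝓞 K) K (y - 1)) ≤
      WithZero.exp (-((2 * k + 1 : ℕ) : ℤ)) := h1
    rw [map_sub, map_one] at h1
    refine lt_of_le_of_lt h1 ?_
    refine lt_of_lt_of_le ?_ (pow_le_pow_left₀ zero_le hk' 2)
    rw [← WithZero.exp_nsmul, WithZero.exp_lt_exp]
    push_cast
    simp

end

section
variable {K Ω : Type} [Field K] [NumberField K] [Field Ω] [NumberField Ω] [Algebra K Ω]
  [IsGalois K Ω]

open Pool.Agent.TeamU (act val_act val_act' mem_act act_mul act_one)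

/-- inertia elements are in the decomposition group -/
theorem act_eq_of_inert {W : HeightOneSpectrum (𝓞 Ω)} {g : Ω ≃ₐ[K] Ω} (hg : Inert W g) :
    act g W = W := by
  have h1 : W.asIdeal ≤ (act g⁻¹ W).asIdeal := by
    intro x hx
    rw [mem_act]
    have hgx : IsIntegral ℤ (g (x : Ω)) := x.2.map g
    obtain ⟨y, hy⟩ : ∃ y : 𝓞 Ω, (y : Ω) = g (x : Ω) := ⟨⟨g (x : Ω), hgx⟩, rfl⟩
    have h2 := hg x
    rw [← hy] at h2
    have h3 : y - x ∈ W.asIdeal := (W.valuation_lt_one_iff_mem (K := Ω) (y - x)).1 h2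
    have h4 : y ∈ W.asIdeal := by
      have h5 := W.asIdeal.add_mem h3 hx
      rwa [sub_add_cancel] at h5
    have h6 : (RingOfIntegers.mapRingEquiv (g⁻¹ : Ω ≃ₐ[K] Ω).toRingEquiv).symm x = y := by
      apply RingOfIntegers.ext
      rw [hy]
      rfl
    rw [h6]
    exact h4
  have h2 : W.asIdeal = (act g⁻¹ W).asIdeal :=
    W.isMaximal.eq_of_le (act g⁻¹ W).isPrime.ne_top h1
  have h3 : act g⁻¹ W = W := (HeightOneSpectrum.ext h2).symm
  conv_lhs => rw [← h3]
  rw [← act_mul, mul_inv_cancel, act_one]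

/-- a prime whose inertia group fixes the root -/
theorem inert_fix {v : HeightOneSpectrum (𝓞 K)} {n : ℕ} (hn : 0 < n) {y : K} {r ζ : Ω}
    (hr : r ^ n = algebraMap K Ω y) (hζ : IsPrimitiveRoot ζ n)
    (hirr : Irreducible (Polynomial.X ^ n - Polynomial.C y : Polynomial K))
    (hy : v.valuation K (y - 1) < v.valuation K (n : K) ^ 2) :
    ∃ W : HeightOneSpectrum (𝓞 Ω), W.under (𝓞 K) = v ∧ ∀ g : Ω ≃ₐ[K] Ω, Inert W g → g r = r := by
  obtain ⟨W0, hW0⟩ := Pool.Agent.Q38.EX.exists_above (M := Ω) v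
  have hover := Pool.Agent.Q38.EX.over_of_under W0 v hW0
  have hval : ∀ x : K, W0.valuation Ω (algebraMap K Ω x) =
      v.valuation K x ^ (v.asIdeal.ramificationIdx' W0.asIdeal) := fun x =>
    Pool.Agent.TeamU.val_over hover x
  have hn0 : (n : Ω) ≠ 0 := Nat.cast_ne_zero.2 (by omega)
  have he : v.asIdeal.ramificationIdx' W0.asIdeal ≠ 0 := by
    intro h0
    have h1 := hval (0 : K)
    rw [map_zero, map_zero, map_zero, h0, pow_zero] at h1
    exact zero_ne_one h1
  have hlt : W0.valuation Ω (r ^ n - 1) < W0.valuation Ω (n : Ω) ^ 2 := by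
    have h1 : (n : Ω) = algebraMap K Ω (n : K) := (map_natCast _ n).symm
    have h2 : r ^ n - 1 = algebraMap K Ω (y - 1) := by rw [hr, map_sub, map_one]
    rw [h2, h1, hval, hval, ← pow_mul, mul_comm _ 2, pow_mul]
    exact pow_lt_pow_left₀ hy zero_le he
  obtain ⟨θ, hθ, hle⟩ := exists_root_near (W0.valuation Ω) hn hζ r
  have hm : W0.valuation Ω (r - θ) < W0.valuation Ω (n : Ω) := by
    by_contra h
    push Not at h
    have h2 : W0.valuation Ω (n : Ω) * W0.valuation Ω (n : Ω) ≤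
        W0.valuation Ω (r - θ) * W0.valuation Ω (n : Ω) := mul_le_mul_left h _
    rw [← sq] at h2
    exact absurd (h2.trans hle) (not_le.2 hlt)
  have hWn1 : W0.valuation Ω (n : Ω) ≤ 1 := by
    have := W0.valuation_le_one (K := Ω) (n : 𝓞 Ω)
    simpa using this
  have hθ0 : θ ≠ 0 := by
    rintro rfl
    rw [zero_pow (by omega)] at hθ
    exact zero_ne_one hθ
  have hWθ : W0.valuation Ω θ = 1 := val_root _ hn hθ
  -- a conjugate
  have hmin : Polynomial.X ^ n - Polynomial.C y = minpoly K r := by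
    refine minpoly.eq_of_irreducible_of_monic hirr ?_
      (Polynomial.monic_X_pow_sub_C _ (by omega))
    rw [map_sub, map_pow, Polynomial.aeval_X, Polynomial.aeval_C, hr, sub_self]
  obtain ⟨τ, hτ⟩ : ∃ τ : Ω ≃ₐ[K] Ω, τ r = r / θ := by
    refine minpoly.exists_algEquiv_of_root' (Algebra.IsAlgebraic.isAlgebraic r) ?_
    rw [← hmin, map_sub, map_pow, Polynomial.aeval_X, Polynomial.aeval_C, div_pow, hθ, div_one, hr,
      sub_self]
  refine ⟨act τ⁻¹ W0, ?_, ?_⟩
  · rw [← hW0]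
    exact Pool.Agent.Q38.EX.under_act τ⁻¹ W0
  set W := act τ⁻¹ W0 with hW
  have hWval : ∀ x : Ω, W.valuation Ω x = W0.valuation Ω (τ x) := by
    intro x
    rw [hW, val_act']
    rfl
  have hWn : W.valuation Ω (n : Ω) = W0.valuation Ω (n : Ω) := by
    rw [hWval, map_natCast]
  have hWr : W.valuation Ω (r - 1) < W.valuation Ω (n : Ω) := by
    rw [hWn, hWval, map_sub, map_one, hτ]
    have h1 : r / θ - 1 = (r - θ) / θ := by
      rw [sub_div, div_self hθ0]
    rw [h1, map_div₀, hWθ, div_one]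
    exact hm
  have hWr1 : W.valuation Ω r = 1 := by
    have h3 := Valuation.map_add_eq_of_lt_right (W.valuation Ω) (x := r - 1) (y := 1) (by
      rw [map_one]
      exact hWr.trans_le (hWn ▸ hWn1))
    rw [sub_add_cancel, map_one] at h3
    exact h3
  have hr0 : r ≠ 0 := by
    rintro rfl
    rw [map_zero] at hWr1
    exact zero_ne_one hWr1
  intro g hg
  have hgW := act_eq_of_inert hg
  have hWg : ∀ x : Ω, W.valuation Ω (g x) = W.valuation Ω x := by
    intro x
    have h1 := val_act g W x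
    rwa [hgW] at h1
  have hgr : (g r / r) ^ n = 1 := by
    rw [div_pow, ← map_pow, hr, g.commutes, ← hr, div_self (pow_ne_zero _ hr0)]
  have h1 : W.valuation Ω (g r - 1) = W.valuation Ω (r - 1) := by
    rw [← hWg (r - 1), map_sub g, map_one g]
  have h2 : W.valuation Ω (g r / r - 1) < W.valuation Ω (n : Ω) := by
    have h3 : g r / r - 1 = ((g r - 1) - (r - 1)) / r := by
      field_simp
      ring
    rw [h3, map_div₀, hWr1, div_one]
    refine (Valuation.map_sub _ _ _).trans_lt ?_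
    rw [h1, max_self]
    exact hWr
  have h3 : g r / r = 1 := by
    by_contra h4
    exact absurd (val_root_sub_one (W.valuation Ω) hn hζ hgr h4) (not_le.2 h2)
  rwa [div_eq_one_iff_eq hr0] at h3

end

end Pool.Agent.H385.ED.CNDB
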