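import Pool.Agent.H500.ED.Stm
import Pool.Agent.H385.ED.CNDB1
import Pool.Graph.R_pool_sql_team_seeded_3997aac3.Q275.EX.Res
import Pool.Graph.R_pool_sql_team_seeded_3997aac3.Q222.SG.NP
import Pool.Graph.R_pool_sql_team_seeded_3997aac3.Q31.SG.LK
import Pool.Graph.R_pool_sql_team_seeded_3997aac3.Q14.SG.IJ
import Pool.Graph.R_pool_sql_team_seeded_3997aac3.Q111.EX.Unr

/-!
# Project ED (helper500), part A2 (`S_CNDB`): ramification of Artin characters, `p`-part at a place above `p`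
-/

set_option autoImplicit false
set_option linter.unusedSectionVars false

namespace Pool.Agent.H385.ED.CNDB

open NumberField IsDedekindDomain Module
open Pool.Agent.Q92.AR Pool.Agent.Q20.EX
open Pool.Agent.Q38.EX (near_one near_mul near_div lt_one_iff_le_exp)
open Pool.Agent.Q53.EX (unr0 ram_top prin_mem_Pr_of_Un art_infl exists_gal inert_restrict
  inert_eq_one Pr_mono)
open Pool.Agent.Q125.AR (mem_under prin_eq_zero_of_valuation art_eq_sum)
open Pool.Agent.Q5.SG (TotRam)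

/-- a big Galois extension -/
theorem exists_big (K M : Type) [Field K] [NumberField K] [Field M] [NumberField M]
    [Algebra K M] {n : ℕ} (hn : 0 < n) (y : K) :
    ∃ (Ω : Type) (_ : Field Ω) (_ : NumberField Ω) (_ : Algebra K Ω) (_ : Algebra M Ω)
      (_ : IsScalarTower K M Ω) (_ : IsGalois K Ω) (r ζ : Ω),
      r ^ n = algebraMap K Ω y ∧ IsPrimitiveRoot ζ n := by
  obtain ⟨r, hr⟩ := IsAlgClosed.exists_pow_nat_eq (algebraMap K (AlgebraicClosure M) y) hn
  have hne : NeZero (n : AlgebraicClosure M) := ⟨Nat.cast_ne_zero.2 hn.ne'⟩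
  obtain ⟨ζ, hζ⟩ := IsAlgClosed.exists_root (Polynomial.cyclotomic n (AlgebraicClosure M)) (by
    rw [Polynomial.degree_cyclotomic]
    have := Nat.totient_pos.2 hn
    exact_mod_cast this.ne')
  have hζ' : IsPrimitiveRoot ζ n := Polynomial.isRoot_cyclotomic_iff.1 hζ
  let M1 : IntermediateField M (AlgebraicClosure M) := IntermediateField.adjoin M {r, ζ}
  have hfd : FiniteDimensional M M1 := by
    refine IntermediateField.finiteDimensional_adjoin fun x _ => ?_
    exact (Algebra.IsAlgebraic.isAlgebraic x).isIntegral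
  have hNF : NumberField M1 := by
    have h2 : FiniteDimensional ℚ M1 := FiniteDimensional.trans ℚ M M1
    exact ⟨⟩
  have hr1 : r ∈ M1 := IntermediateField.subset_adjoin _ _ (Set.mem_insert _ _)
  have hζ1 : ζ ∈ M1 := IntermediateField.subset_adjoin _ _ (Set.mem_insert_of_mem _ rfl)
  obtain ⟨Ω, _, _, _, _, _, hG⟩ := exists_gal K M1
  let iM : Algebra M Ω := ((algebraMap M1 Ω).comp (algebraMap M M1)).toAlgebra
  have hT : IsScalarTower K M Ω := by
    refine IsScalarTower.of_algebraMap_eq fun x => ?_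
    rw [IsScalarTower.algebraMap_apply K M1 Ω]
    change _ = algebraMap M1 Ω (algebraMap M M1 (algebraMap K M x))
    rfl
  refine ⟨Ω, inferInstance, inferInstance, inferInstance, iM, hT, hG,
    algebraMap M1 Ω ⟨r, hr1⟩, algebraMap M1 Ω ⟨ζ, hζ1⟩, ?_, ?_⟩
  · rw [← map_pow, IsScalarTower.algebraMap_apply K M1 Ω]
    congr 1
    apply Subtype.ext
    change r ^ n = _
    rw [hr]
    rfl
  · refine IsPrimitiveRoot.map_of_injective ?_ (algebraMap M1 Ω).injective
    have h1 : IsPrimitiveRoot (algebraMap M1 (AlgebraicClosure M) ⟨ζ, hζ1⟩) n := hζ'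
    exact h1.of_map_of_injective (algebraMap M1 (AlgebraicClosure M)).injective

open Pool.Agent.TeamU (act val_act)

/-- the character of the big field is trivial at all places -/
theorem triv {K M Ω : Type} [Field K] [NumberField K] [Field M] [NumberField M] [Field Ω]
    [NumberField Ω] [Algebra K M] [Algebra K Ω] [Algebra M Ω] [IsScalarTower K M Ω] [IsGalois K M]
    [IsGalois K Ω] (L : IntermediateField K Ω) (ψ : (M ≃ₐ[K] M) →* ℂˣ) {N' A p a N : ℕ}
    {χ : Dv K →+ Additive ℂˣ} (hA : A ≠ 0)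
    (hcop : Nat.Coprime A p) (hart : ∀ D ∈ Pr K N', art ψ D = χ D)
    (hray : ∀ x ∈ Ray K A, χ (prin x) = 0) (hpow : ∀ g, ψ g ^ p ^ a = 1)
    (hfin : finrank K L = p ^ a) (hN : N ≠ 0) (hN' : N' ∣ N) (hAN : A ∣ N) (hR : Ram K Ω N)
    (htot : ∀ u : HeightOneSpectrum (𝓞 K), (A : 𝓞 K) ∈ u.asIdeal → TotRam u L) :
    TrivAt Set.univ N
      (art ((ψ.comp (AlgEquiv.restrictNormalHom (F := K) (K₁ := Ω) M)).comp (rs K L Ω))) := by
  classical
  intro x hx hpos _
  have hD : prin x ∈ Pr L N := prin_mem_Pr_of_Un hx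
  rw [Pool.Agent.Q275.EX.res K L Ω _ N hN hR (prin x) hD]
  have hnm := Pool.Agent.Q106.AR.nm K L
  rw [hnm.1 x]
  have hz : prin (nu K L x) ∈ Pr K N := by
    rw [← hnm.1]
    exact hnm.2.2.2.1 N _ hD
  rw [art_infl Pool.Agent.Q225.AR.fr K M Ω hR ψ _ (fun g => rfl) hz, hart _ (Pr_mono hN' hz)]
  have hzpos : Pos (nu K L x : K) :=
    (hnm.2.2.1 1 one_ne_zero x ⟨fun w hw => absurd ((Ideal.eq_top_iff_one _).2 (by simpa using hw))
      w.isPrime.ne_top, hpos⟩).2
  have hpn : ∀ D ∈ Pr K N, p ^ a • χ D = 0 := by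
    intro D hD
    rw [← hart D (Pr_mono hN' hD), art_eq_sum, ← Finset.sum_nsmul]
    refine Finset.sum_eq_zero fun v _ => ?_
    have h1 : p ^ a • Additive.ofMul (ψ (frob M v)) = 0 := by
      rw [← ofMul_pow, hpow]
      rfl
    have h2 := map_nsmul (zsmulAddGroupHom (α := Additive ℂˣ) (D v)) (p ^ a)
      (Additive.ofMul (ψ (frob M v)))
    rw [h1, map_zero] at h2
    exact h2.symm
  -- the local components at the places dividing `A`
  have hloc : ∀ u : HeightOneSpectrum (𝓞 K), ∃ x₀ : Kˣ, (A : 𝓞 K) ∈ u.asIdeal →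
      u.valuation K (x₀ : K) = 1 ∧
      u.valuation K ((nu K L x : K) / (x₀ : K) ^ p ^ a - 1) ≤ WithZero.exp (-1 : ℤ) := by
    intro u
    by_cases hu : (A : 𝓞 K) ∈ u.asIdeal
    · obtain ⟨x₀, h1, h2⟩ := Pool.Agent.Q222.SG.np K L u (htot u hu) x (fun w hw => by
        refine hx w ?_
        rw [← mem_under (F := K), hw]
        obtain ⟨k, rfl⟩ := hAN
        rw [Nat.cast_mul]
        exact u.asIdeal.mul_mem_right _ hu)
      rw [hfin] at h2
      exact ⟨x₀, fun _ => ⟨h1, (lt_one_iff_le_exp _).1 h2⟩⟩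
    · exact ⟨1, fun h => absurd h hu⟩
  choose x₀ hx₀ using hloc
  obtain ⟨c, hcpos, hc⟩ := Pool.Agent.Q285.EX.approx (Pool.Agent.Q285.EX.pN K N hN)
    (fun u => if (A : 𝓞 K) ∈ u.asIdeal then (x₀ u : K) else 1) 1
  have hlt : (WithZero.exp (-1 : ℤ)) < 1 := by
    rw [← WithZero.exp_zero, WithZero.exp_lt_exp]
    omega
  have hcx : ∀ u : HeightOneSpectrum (𝓞 K), (A : 𝓞 K) ∈ u.asIdeal →
      u.valuation K ((c : K) / (x₀ u : K) - 1) ≤ WithZero.exp (-1 : ℤ) := by
    intro u hu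
    have huN : (N : 𝓞 K) ∈ u.asIdeal := by
      obtain ⟨k, rfl⟩ := hAN
      rw [Nat.cast_mul]
      exact u.asIdeal.mul_mem_right _ hu
    have h1 := hc u ((Pool.Agent.Q285.EX.mem_pN hN u).2 huN)
    rw [if_pos hu] at h1
    have h2 : (c : K) / (x₀ u : K) - 1 = ((c : K) - x₀ u) / x₀ u := by
      rw [sub_div, div_self (x₀ u).ne_zero]
    rw [h2, map_div₀, (hx₀ u hu).1, div_one]
    exact h1
  have hcU : Un N c := by
    intro u huN
    by_cases hu : (A : 𝓞 K) ∈ u.asIdeal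
    · have h1 := near_one (u.valuation K) hlt (hcx u hu)
      rwa [map_div₀, (hx₀ u hu).1, div_one] at h1
    · have h1 := hc u ((Pool.Agent.Q285.EX.mem_pN hN u).2 huN)
      rw [if_neg hu] at h1
      exact near_one (u.valuation K) hlt h1
  have hcP : prin c ∈ Pr K N := prin_mem_Pr_of_Un hcU
  -- the decomposition
  set z := nu K L x with hzdef
  have hzc : z = c ^ p ^ a * (z / c ^ p ^ a) := by
    rw [mul_div_cancel]
  have hyP : prin (z / c ^ p ^ a) ∈ Pr K N := by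
    rw [prin_div, prin_pow]
    exact (Pr K N).sub_mem hz ((Pr K N).nsmul_mem hcP _)
  have hy0 : χ (prin (z / c ^ p ^ a)) = 0 := by
    refine chi_zero (a := a) hA hcop χ hray _ ?_ ?_ (hpn _ hyP)
    · intro φ
      rw [Units.val_div_eq_div_val, Units.val_pow_eq_pow_val, map_div₀]
      exact div_pos (hzpos φ) (pos_pow hcpos _ φ)
    · intro u hu
      have h1 : ((z / c ^ p ^ a : Kˣ) : K) =
          ((z : K) / (x₀ u : K) ^ p ^ a) / ((c : K) / (x₀ u : K)) ^ p ^ a := by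
        have h3 := (x₀ u).ne_zero
        have h4 := c.ne_zero
        rw [Units.val_div_eq_div_val, Units.val_pow_eq_pow_val, div_pow]
        field_simp
      rw [h1]
      exact near_div _ hlt (hx₀ u hu).2 (near_pow _ hlt (hcx u hu) _)
  rw [hzc, prin_mul, map_add, hy0, add_zero, prin_pow, map_nsmul, hpn _ hcP]

/-- the main step, for an injective character -/
theorem main_inj (K M : Type) [Field K] [NumberField K] [Field M] [NumberField M] [Algebra K M]
    [IsGalois K M] (ψ : (M ≃ₐ[K] M) →* ℂˣ) (hψ : Function.Injective ψ) (N' A p a : ℕ)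
    (χ : Dv K →+ Additive ℂˣ) (hN' : N' ≠ 0) (hA : A ≠ 0) (hp : p.Prime) (hRM : Ram K M N')
    (hart : ∀ D ∈ Pr K N', art ψ D = χ D) (hray : ∀ x ∈ Ray K A, χ (prin x) = 0)
    (hpow : ∀ g, ψ g ^ p ^ a = 1) (v : HeightOneSpectrum (𝓞 K)) (hAv : (A : 𝓞 K) ∉ v.asIdeal)
    (hpv : (p : 𝓞 K) ∈ v.asIdeal) : Unramified M v := by
  classical
  -- an auxiliary prime number
  obtain ⟨q, hq, hqp⟩ : ∃ q : ℕ, q.Prime ∧ q ≠ p := by
    by_cases h : p = 2
    · exact ⟨3, Nat.prime_three, by omega⟩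
    · exact ⟨2, Nat.prime_two, Ne.symm h⟩
  have hqv : (q : 𝓞 K) ∉ v.asIdeal := by
    intro h
    have h1 : IsCoprime (q : ℤ) (p : ℤ) := by
      rw [Nat.isCoprime_iff_coprime]
      exact (Nat.coprime_primes hq hp).2 hqp
    obtain ⟨s, t, hst⟩ := h1
    apply v.isPrime.ne_top
    rw [Ideal.eq_top_iff_one]
    have h2 : (1 : 𝓞 K) = (s : 𝓞 K) * (q : 𝓞 K) + (t : 𝓞 K) * (p : 𝓞 K) := by
      exact_mod_cast congrArg (Int.cast : ℤ → 𝓞 K) hst.symm
    rw [h2]
    exact v.asIdeal.add_mem (v.asIdeal.mul_mem_left _ h) (v.asIdeal.mul_mem_left _ hpv)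
  have hB : A * q ≠ 0 := mul_ne_zero hA hq.ne_zero
  have hBv : ((A * q : ℕ) : 𝓞 K) ∉ v.asIdeal := by
    rw [Nat.cast_mul]
    intro h
    rcases v.isPrime.mem_or_mem h with h | h
    · exact hAv h
    · exact hqv h
  have hcop : Nat.Coprime A p := by
    rw [Nat.coprime_comm, hp.coprime_iff_not_dvd]
    rintro ⟨k, hk⟩
    apply hAv
    rw [hk, Nat.cast_mul]
    exact v.asIdeal.mul_mem_right _ hpv
  obtain ⟨u0, hu0⟩ : ∃ u : HeightOneSpectrum (𝓞 K), (q : 𝓞 K) ∈ u.asIdeal := by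
    have hm : (Ideal.span {(q : ℤ)}).IsPrime :=
      (Ideal.span_singleton_prime (by exact_mod_cast hq.ne_zero)).2 (Nat.prime_iff_prime_int.1 hq)
    have hne : Ideal.span {(q : ℤ)} ≠ ⊥ := by
      rw [Ne, Ideal.span_singleton_eq_bot]
      exact_mod_cast hq.ne_zero
    have hmax : (Ideal.span {(q : ℤ)}).IsMaximal := hm.isMaximal hne
    obtain ⟨P, hP1, hP2⟩ := Ideal.exists_maximal_ideal_liesOver_of_isIntegral
      (Ideal.span {(q : ℤ)}) (S := 𝓞 K)
    refine ⟨⟨P, hP1.isPrime, Ideal.ne_bot_of_liesOver_of_ne_bot hne P⟩, ?_⟩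
    have h1 : (q : ℤ) ∈ P.comap (algebraMap ℤ (𝓞 K)) := by
      have h2 : Ideal.span {(q : ℤ)} = P.comap (algebraMap ℤ (𝓞 K)) := hP2.over
      rw [← h2]
      exact Ideal.mem_span_singleton_self _
    have h2 := Ideal.mem_comap.1 h1
    simpa using h2
  have hn : 0 < p ^ a := pow_pos hp.pos a
  obtain ⟨y, hy1, hy2⟩ := exists_y hB hBv hn.ne'
  have hu0B : ((A * q : ℕ) : 𝓞 K) ∈ u0.asIdeal := by
    rw [Nat.cast_mul]
    exact u0.asIdeal.mul_mem_left _ hu0
  have hirr := Pool.Agent.Q31.SG.irr (K := K) (𝔮 := u0) (y := y) (n := p ^ a) hn (hy1 u0 hu0B).1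
    (hy1 u0 hu0B).2
  obtain ⟨Ω, _, _, _, _, _, _, r, ζ, hr, hζ⟩ := exists_big K M hn (y : K)
  obtain ⟨W, hW, hWr⟩ := inert_fix hn hr hζ hirr hy2
  -- the field `L`
  obtain ⟨L, hL⟩ : ∃ L : IntermediateField K Ω, L = IntermediateField.adjoin K {r} := ⟨_, rfl⟩
  have hrL : r ∈ L := by
    rw [hL]
    exact IntermediateField.mem_adjoin_simple_self K r
  have hint : IsIntegral K r := (Algebra.IsAlgebraic.isAlgebraic r).isIntegral
  have hmin : Polynomial.X ^ (p ^ a) - Polynomial.C (y : K) = minpoly K r := by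
    refine minpoly.eq_of_irreducible_of_monic hirr ?_
      (Polynomial.monic_X_pow_sub_C _ (by omega))
    rw [map_sub, map_pow, Polynomial.aeval_X, Polynomial.aeval_C, hr, sub_self]
  have hfin : finrank K L = p ^ a := by
    rw [hL, IntermediateField.adjoin.finrank hint, ← hmin, Polynomial.natDegree_X_pow_sub_C]
  have hrint : IsIntegral ℤ r := by
    refine IsIntegral.of_pow (n := p ^ a) hn ?_
    rw [hr]
    exact (y.isIntegral_coe).map (algebraMap K Ω).toIntAlgHom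
  obtain ⟨ρ, hρ⟩ : ∃ ρ : 𝓞 L, algebraMap L Ω (ρ : L) = r := by
    refine ⟨⟨⟨r, hrL⟩, ?_⟩, rfl⟩
    have h1 : IsIntegral ℤ (algebraMap L Ω ⟨r, hrL⟩) := hrint
    exact (isIntegral_algebraMap_iff (algebraMap L Ω).injective).1 h1
  have hρn : ρ ^ (p ^ a) = algebraMap (𝓞 K) (𝓞 L) y := by
    apply RingOfIntegers.ext
    apply (algebraMap L Ω).injective
    have h1 : ((ρ ^ (p ^ a) : 𝓞 L) : L) = (ρ : L) ^ (p ^ a) :=
      map_pow (algebraMap (𝓞 L) L) ρ (p ^ a)
    rw [h1, map_pow, hρ, hr]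
    rfl
  have htot : ∀ u : HeightOneSpectrum (𝓞 K), (A : 𝓞 K) ∈ u.asIdeal → TotRam u L := by
    intro u hu
    have huB : ((A * q : ℕ) : 𝓞 K) ∈ u.asIdeal := by
      rw [Nat.cast_mul]
      exact u.asIdeal.mul_mem_right _ hu
    exact Pool.Agent.Q31.SG.totRam hn hfin (hy1 u huB).1 (hy1 u huB).2 hρn
  -- the modulus
  obtain ⟨N1, hN1, hR1⟩ := Pool.Agent.Q280.AR.rF K Ω
  have hN : N' * A * N1 ≠ 0 := mul_ne_zero (mul_ne_zero hN' hA) hN1
  have hR : Ram K Ω (N' * A * N1) := by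
    intro w hw
    rw [Nat.cast_mul]
    exact w.asIdeal.mul_mem_left _ (hR1 w hw)
  have hRL : Ram L Ω (N' * A * N1) := ram_top hR
  have htriv := triv L ψ (p := p) (a := a) (N := N' * A * N1) hA hcop hart hray hpow hfin hN
    ⟨A * N1, by ring⟩ ⟨N' * N1, by ring⟩ hR htot
  have hGL : IsGalois L Ω := IsGalois.tower_top_of_isGalois K L Ω
  have hunr := unr0 Pool.Agent.Q285.EX.ncg L Ω _ _ hN hRL htriv
  -- the inertia groups
  refine Pool.Agent.Q111.EX.unram_of_inert (M := Ω) v fun W' hW' g hg x => ?_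
  obtain ⟨τ, hτ⟩ := Pool.Agent.TeamU.exists_act (k := K) (L := Ω) (P := W) (Q := W') (v := v)
    (by rw [← hW]; rfl) (by rw [← hW']; rfl)
  have h1 : Inert W (τ⁻¹ * g * τ) := by
    intro y
    have h2 := hg (NumberField.RingOfIntegers.mapRingEquiv τ.toRingEquiv y)
    rw [← hτ] at h2
    have h3 : ((NumberField.RingOfIntegers.mapRingEquiv τ.toRingEquiv y : 𝓞 Ω) : Ω) = τ (y : Ω) :=
      rfl
    rw [h3] at h2
    have h4 : g (τ (y : Ω)) - τ (y : Ω) = τ ((τ⁻¹ * g * τ) (y : Ω) - (y : Ω)) := by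
      rw [map_sub, AlgEquiv.mul_apply, AlgEquiv.mul_apply, ← AlgEquiv.mul_apply τ,
        mul_inv_cancel, AlgEquiv.one_apply]
    rw [h4, val_act] at h2
    exact h2
  have hkr := hWr _ h1
  have hkL : ∀ t : L, (τ⁻¹ * g * τ) (algebraMap L Ω t) = algebraMap L Ω t := by
    have h2 : (τ⁻¹ * g * τ) ∈ L.fixingSubgroup := by
      rw [hL, IntermediateField.mem_fixingSubgroup_iff]
      intro t ht
      have h3 : IntermediateField.adjoin K {r} ≤
          IntermediateField.fixedField (Subgroup.zpowers (τ⁻¹ * g * τ)) := by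
        rw [IntermediateField.adjoin_simple_le_iff, IntermediateField.mem_fixedField_iff]
        intro f hf
        obtain ⟨i, rfl⟩ := Subgroup.mem_zpowers_iff.1 hf
        have h4 : (τ⁻¹ * g * τ) ∈ MulAction.stabilizer (Ω ≃ₐ[K] Ω) r := hkr
        exact Subgroup.zpow_mem _ h4 i
      exact (IntermediateField.mem_fixedField_iff _ _).1 (h3 ht) _ (Subgroup.mem_zpowers _)
    intro t
    exact (IntermediateField.mem_fixingSubgroup_iff _ _).1 h2 _ t.2
  let k : Ω ≃ₐ[L] Ω := { (τ⁻¹ * g * τ : Ω ≃ₐ[K] Ω) with commutes' := hkL }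
  have hk : rs K L Ω k = τ⁻¹ * g * τ := by
    ext x
    rfl
  have h5 := hunr W k h1
  rw [MonoidHom.comp_apply, hk, MonoidHom.comp_apply] at h5
  have h6 : AlgEquiv.restrictNormal (τ⁻¹ * g * τ) M = 1 := hψ (by rw [map_one]; exact h5)
  have h7 : ∀ y : M, (τ⁻¹ * g * τ) (algebraMap M Ω y) = algebraMap M Ω y := by
    intro y
    rw [← AlgEquiv.restrictNormal_commutes, h6, AlgEquiv.one_apply]
  have h8 := h7 (AlgEquiv.restrictNormal τ⁻¹ M x)
  rw [AlgEquiv.restrictNormal_commutes] at h8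
  have h9 := congrArg τ h8
  rw [← AlgEquiv.mul_apply, ← AlgEquiv.mul_apply, ← AlgEquiv.mul_apply] at h9
  rw [← mul_assoc, ← mul_assoc, mul_inv_cancel, one_mul, mul_assoc, mul_inv_cancel, mul_one,
    AlgEquiv.one_apply] at h9
  exact h9

/-- **Part A2** (`S_CNDB`). -/
theorem main : Pool.Agent.H500.ED.S_CNDB := by
  classical
  intro K M _ _ _ _ _ _ ψ N' A p a χ hN' hA hp hR hart hray hpow v hAv hpv w g hw hg
  let H : Subgroup (M ≃ₐ[K] M) := ψ.ker
  let E : IntermediateField K M := IntermediateField.fixedField H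
  have hfix : E.fixingSubgroup = H := IntermediateField.fixingSubgroup_fixedField H
  have hGal : IsGalois K E := IsGalois.of_fixedField_normal_subgroup H
  let res : (M ≃ₐ[K] M) →* (E ≃ₐ[K] E) := AlgEquiv.restrictNormalHom E
  have hres : Function.Surjective res := AlgEquiv.restrictNormalHom_surjective M
  have hker : res.ker = ψ.ker := by
    change res.ker = H
    rw [← hfix]
    exact IntermediateField.restrictNormalHom_ker E
  have hle : res.ker ≤ ψ.ker := hker.le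
  let ψ' : (E ≃ₐ[K] E) →* ℂˣ := (MonoidHom.liftOfSurjective res hres) ⟨ψ, hle⟩
  have hψ' : ∀ g, ψ' (res g) = ψ g := fun g =>
    MonoidHom.liftOfRightInverse_comp_apply res _ _ ⟨ψ, hle⟩ g
  have hinj : Function.Injective ψ' := by
    rw [injective_iff_map_eq_one]
    intro g hg
    obtain ⟨g, rfl⟩ := hres g
    rw [hψ'] at hg
    have h : g ∈ res.ker := by
      rw [hker]
      exact hg
    exact h
  have hRE : Ram K E N' := fun v hv => hR v fun h => hv h.sub
  have hartE : ∀ D ∈ Pr K N', art ψ' D = χ D := fun D hD =>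
    (Pool.Agent.Q14.SG.art_quot' ψ ψ' hψ' N' hR D hD).trans (hart D hD)
  have hpowE : ∀ g, ψ' g ^ p ^ a = 1 := by
    intro g
    obtain ⟨g, rfl⟩ := hres g
    rw [hψ']
    exact hpow g
  have hu : Unramified E v :=
    main_inj K E ψ' hinj N' A p a χ hN' hA hp hRE hartE hray hpowE v hAv hpv
  have hv : (w.under (𝓞 E)).under (𝓞 K) = v := by
    rw [← hw]
    rfl
  have h1 : AlgEquiv.restrictNormal g E = 1 := by
    refine inert_eq_one (w := w.under (𝓞 E)) ?_ (inert_restrict hg)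
    rw [hv]
    exact hu
  rw [← hψ' g]
  change ψ' (AlgEquiv.restrictNormal g E) = 1
  rw [h1, map_one]

end Pool.Agent.H385.ED.CNDB
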